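import Pool.Agent.ARC.StmtsU

/-!
# Squad ARC, row DCP: decomposition into eigenfunctions of the translation by u/n
-/

set_option autoImplicit false

namespace Pool.Agent.ARC.H59

open scoped BigOperators InnerProductSpace
open Pool.Agent.THS Pool.Agent.ZES Pool.Agent.ARC

lemma rt_pow (n κ : ℕ) : rt n κ = (rt n 1) ^ κ := by
  unfold rt
  rw [← Complex.exp_nat_mul]
  congr 1
  push_cast
  ring

lemma rt_prim (n : ℕ) (hn : 1 ≤ n) : IsPrimitiveRoot (rt n 1) n := by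
  have h := Complex.isPrimitiveRoot_exp n (by omega)
  have e : rt n 1 = Complex.exp (2 * Real.pi * Complex.I / n) := by
    unfold rt
    congr 1
    push_cast
    ring
  rw [e]
  exact h

lemma sum_shift (n : ℕ) (z : ℂ) (hz : z ≠ 0) (hzn : z ^ n = 1) (w : ℕ → ℂ) (hw : w n = w 0) :
    ∑ t ∈ Finset.range n, (z⁻¹) ^ t * w (t + 1) = z * ∑ t ∈ Finset.range n, (z⁻¹) ^ t * w t := by
  have h1 : ∑ t ∈ Finset.range (n + 1), (z⁻¹) ^ t * w t
      = ∑ t ∈ Finset.range n, (z⁻¹) ^ t * w t + (z⁻¹) ^ n * w n :=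
    Finset.sum_range_succ (fun t => (z⁻¹) ^ t * w t) n
  have h2 : ∑ t ∈ Finset.range (n + 1), (z⁻¹) ^ t * w t
      = ∑ t ∈ Finset.range n, (z⁻¹) ^ (t + 1) * w (t + 1) + (z⁻¹) ^ 0 * w 0 :=
    Finset.sum_range_succ' (fun t => (z⁻¹) ^ t * w t) n
  have h3 : (z⁻¹) ^ n * w n = (z⁻¹) ^ 0 * w 0 := by
    rw [inv_pow, hzn, hw]
    simp
  have h4 : ∑ t ∈ Finset.range n, (z⁻¹) ^ t * w t
      = ∑ t ∈ Finset.range n, (z⁻¹) ^ (t + 1) * w (t + 1) := by
    have := h1.symm.trans h2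
    rw [h3] at this
    exact add_right_cancel this
  rw [h4, Finset.mul_sum]
  refine Finset.sum_congr rfl fun t _ => ?_
  rw [pow_succ]
  field_simp

theorem dcp (h1 : Tv1Stmt) : DcpStmt := by
  intro V _ _ L χ hL n hn hev u hu S F hF hS
  obtain ⟨t1, t2, _, t4, t5, _⟩ := h1 V L χ hL n hn
  have hn0 : (n : ℂ) ≠ 0 := by
    have : n ≠ 0 := by omega
    exact_mod_cast this
  set η : V := fr n u with hη
  set W : ℕ → V → ℂ := fun t => (tv n η)^[t] F with hW
  have hWt : ∀ t, W t = tv n ((t : ℂ) • η) F := fun t => t4 η t F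
  have hmem : ∀ t : ℕ, (n : ℂ) • ((t : ℂ) • η) ∈ L := by
    intro t
    have e : (n : ℂ) • ((t : ℂ) • η) = t • u := by
      rw [hη]
      unfold fr
      rw [smul_smul, smul_smul]
      have : (n : ℂ) * (t : ℂ) * (n : ℂ)⁻¹ = (t : ℂ) := by
        field_simp
      rw [this]
      exact Nat.cast_smul_eq_nsmul ℂ t u
    rw [e]
    exact L.nsmul_mem hu t
  have hWTN : ∀ t, W t ∈ TN L χ n := by
    intro t
    rw [hWt t]
    exact t1 _ (hmem t) F hF
  have hWNB : ∀ t, NB n S (W t) := by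
    intro t
    rw [hWt t]
    exact t2 _ S F hS
  have hWn : W n = W 0 := by
    have e : (n : ℂ) • η = u := by
      rw [hη]
      unfold fr
      rw [smul_smul, mul_inv_cancel₀ hn0, one_smul]
    rw [hWt n, e]
    funext x
    rw [t5 u hu F hF x]
    have hchi : χ u ^ n = 1 := by
      obtain ⟨k, hk⟩ := hev
      rw [hk, ← two_mul, pow_mul, hL.sq u hu, one_pow]
    rw [hchi, one_mul]
    rfl
  have hstep : ∀ t x, tv n η (W t) x = W (t + 1) x := by
    intro t x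
    have : W (t + 1) = tv n η (W t) := Function.iterate_succ_apply' (tv n η) t F
    rw [this]
  have hprim := rt_prim n hn
  have hrt0 : ∀ κ : ℕ, rt n κ ≠ 0 := fun κ => Complex.exp_ne_zero _
  have hrtn : ∀ κ : ℕ, rt n κ ^ n = 1 := by
    intro κ
    rw [rt_pow, ← pow_mul, mul_comm, pow_mul, hprim.pow_eq_one, one_pow]
  have hnorm : ∀ κ : ℕ, ‖rt n κ‖ = 1 := by
    intro κ
    have := hrtn κ
    have h2 : ‖rt n κ‖ ^ n = 1 := by
      rw [← norm_pow, this, norm_one]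
    exact (pow_eq_one_iff_of_nonneg (norm_nonneg _) (by omega)).mp h2
  refine ⟨fun κ => ((n : ℂ)⁻¹) • ∑ t ∈ Finset.range n, ((rt n κ.val)⁻¹ ^ t) • W t, ?_, ?_⟩
  · intro κ
    refine ⟨?_, ?_, ?_⟩
    · exact Submodule.smul_mem _ _ (Submodule.sum_mem _ fun t _ =>
        Submodule.smul_mem _ _ (hWTN t))
    · intro x
      have e : (((n : ℂ)⁻¹) • ∑ t ∈ Finset.range n, ((rt n κ.val)⁻¹ ^ t) • W t) x
          = (n : ℂ)⁻¹ * ∑ t ∈ Finset.range n, (rt n κ.val)⁻¹ ^ t * W t x := by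
        simp [Finset.sum_apply]
      show ‖(((n : ℂ)⁻¹) • ∑ t ∈ Finset.range n, ((rt n κ.val)⁻¹ ^ t) • W t) x‖ ≤ _
      rw [e, norm_mul]
      have h2 : ‖∑ t ∈ Finset.range n, (rt n κ.val)⁻¹ ^ t * W t x‖
          ≤ ∑ t ∈ Finset.range n, S * Real.exp (Real.pi * (n : ℝ) * ‖x‖ ^ 2 / 2) := by
        refine (norm_sum_le _ _).trans (Finset.sum_le_sum fun t _ => ?_)
        rw [norm_mul, norm_pow, norm_inv, hnorm, inv_one, one_pow, one_mul]
        exact hWNB t x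
      rw [Finset.sum_const, Finset.card_range, nsmul_eq_mul] at h2
      have hnpos : (0 : ℝ) < n := by
        have : 0 < n := by omega
        exact_mod_cast this
      have h3 : ‖(n : ℂ)⁻¹‖ = (n : ℝ)⁻¹ := by
        rw [norm_inv, Complex.norm_natCast]
      rw [h3]
      calc (n : ℝ)⁻¹ * ‖∑ t ∈ Finset.range n, (rt n κ.val)⁻¹ ^ t * W t x‖
          ≤ (n : ℝ)⁻¹ * ((n : ℝ) * (S * Real.exp (Real.pi * (n : ℝ) * ‖x‖ ^ 2 / 2))) :=
            mul_le_mul_of_nonneg_left h2 (by positivity)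
        _ = S * Real.exp (Real.pi * (n : ℝ) * ‖x‖ ^ 2 / 2) := by
            rw [← mul_assoc, inv_mul_cancel₀ hnpos.ne', one_mul]
    · funext x
      have e1 : tv n η (((n : ℂ)⁻¹) • ∑ t ∈ Finset.range n, ((rt n κ.val)⁻¹ ^ t) • W t) x
          = (n : ℂ)⁻¹ * ∑ t ∈ Finset.range n, (rt n κ.val)⁻¹ ^ t * W (t + 1) x := by
        have h2 : tv n η (((n : ℂ)⁻¹) • ∑ t ∈ Finset.range n, ((rt n κ.val)⁻¹ ^ t) • W t) x
            = (((n : ℂ)⁻¹) • ∑ t ∈ Finset.range n, ((rt n κ.val)⁻¹ ^ t) • W t) (x + η)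
              * (al (Real.pi * (n : ℝ)) η x)⁻¹ := rfl
        rw [h2]
        simp only [Pi.smul_apply, Finset.sum_apply, smul_eq_mul]
        rw [mul_assoc, Finset.sum_mul]
        congr 1
        refine Finset.sum_congr rfl fun t _ => ?_
        have h3 : W (t + 1) x = W t (x + η) * (al (Real.pi * (n : ℝ)) η x)⁻¹ := (hstep t x).symm
        rw [h3]
        ring
      rw [e1]
      have h4 := sum_shift n (rt n κ.val) (hrt0 _) (hrtn _) (fun t => W t x)
        (by simp only [hWn])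
      rw [h4]
      simp only [Pi.smul_apply, Finset.sum_apply, smul_eq_mul]
      ring
  · intro x
    have e : ∀ κ : Fin n, (((n : ℂ)⁻¹) • ∑ t ∈ Finset.range n, ((rt n κ.val)⁻¹ ^ t) • W t) x
        = (n : ℂ)⁻¹ * ∑ t ∈ Finset.range n, (rt n κ.val)⁻¹ ^ t * W t x := by
      intro κ
      simp [Finset.sum_apply]
    simp only [e]
    rw [← Finset.mul_sum, Finset.sum_comm]
    have hz : ∀ t ∈ Finset.range n, t ≠ 0 → ∑ κ : Fin n, (rt n κ.val)⁻¹ ^ t * W t x = 0 := by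
      intro t ht ht0
      rw [← Finset.sum_mul]
      have h5 : ∑ κ : Fin n, (rt n κ.val)⁻¹ ^ t
          = ∑ κ ∈ Finset.range n, (((rt n 1)⁻¹) ^ t) ^ κ := by
        rw [Finset.sum_range (fun κ => (((rt n 1)⁻¹) ^ t) ^ κ)]
        refine Finset.sum_congr rfl fun κ _ => ?_
        rw [rt_pow n κ.val, ← inv_pow, ← pow_mul, ← pow_mul, mul_comm]
      have h6 : ((rt n 1)⁻¹) ^ t ≠ 1 :=
        hprim.inv.pow_ne_one_of_pos_of_lt ht0 (Finset.mem_range.mp ht)
      have h7 : (((rt n 1)⁻¹) ^ t) ^ n = 1 := by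
        rw [← pow_mul, mul_comm, pow_mul, hprim.inv.pow_eq_one, one_pow]
      rw [h5, geom_sum_eq h6, h7]
      simp
    rw [Finset.sum_eq_single 0 hz (fun h => absurd (Finset.mem_range.mpr (by omega)) h)]
    simp only [pow_zero, one_mul, Finset.sum_const, Finset.card_univ, Fintype.card_fin,
      nsmul_eq_mul]
    rw [← mul_assoc, inv_mul_cancel₀ hn0, one_mul]
    rfl

end Pool.Agent.ARC.H59
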